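import Pool.Agent.KCS.FIN
import Pool.Agent.KCS.KNT
import Pool.Agent.KCS.ALT

/-!
# Crossing numbers of connected sums with closed 3-braids

Diagrams are words in elementary pieces in Morse position (`Pool/Agent/KCS/Defs.lean`), equivalence is
plane isotopy and the Reidemeister moves. For a connected sum `K` of arbitrary knots we prove
`cc K ≥` the sum of contributions of the summands, where a summand contributes
* half of its crossing number if it is a closed 3-braid,
* `c` if it has a reduced alternating diagram with `c` crossings,
* `(c + s_A + s_B) / 2 - 1` if it has an adequate diagram with `c` crossings and `s_A`, `s_B` state circles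
  (that is `c` minus the Turaev genus of the diagram),
* `0` in all cases.

Proof: Kauffman bracket `K w A` with real `A`, `H w A = |K w A * K (mirror w) A|` is an invariant; `H w A ≤ C A ^ (4 c + 4)`
for a knot diagram with `c` crossings (state sum, and `s_A + s_B ≤ c + 2` by an orthogonality argument over the field
with two elements); `H` is multiplicative up to the square of the value of a circle; lower bounds for the growth of `H` for
adequate diagrams, for all knots, and for closed 3-braids (classification of the conjugacy classes of the braid group with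
three strands, reduced Temperley-Lieb representation, top coefficients of the trace).
-/

namespace Pool.Agent.Results.MP_c45b53_gt.MixedSums

open Pool.Agent.KCS

/-- contributions of a summand to the lower bound -/
inductive Contrib : Word → ℚ → Prop
  | any (w : Word) : Contrib w 0
  | alternating (w d : Word) : TEq 0 0 w d → Alt d → Red d → Contrib w (cr d)
  | adequate (w d : Word) : TEq 0 0 w d → AdA d → AdA (mir d) →
      Contrib w (((cr d : ℚ) + lp (resA d) + lp (resA (mir d))) / 2 - 1)
  | braid (w : Word) (l : List Ltr) : TEq 0 0 w (cl3 (bw l)) → Contrib w (cc w / 2)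

theorem resA_ne_nil {d : Word} (h : IsKnot d) : resA d ≠ [] := by
  rcases d with _ | ⟨⟨k, i⟩, w⟩
  · exact absurd rfl (ne_nil_of_isKnot h)
  · have h1 : i + k.inp ≤ 0 := h.1.1
    cases k
    · exact List.cons_ne_nil _ _
    · simp [Kind.inp] at h1
    · simp [Kind.inp] at h1
    · simp [Kind.inp] at h1

theorem lp_res_pos {d : Word} (h : IsKnot d) : 1 ≤ lp (resA d) :=
  lp_pos _ (cr_resA d) (ok_resA h.1) (resA_ne_nil h)

theorem wt_of_contrib {w : Word} {v : ℚ} (hw : IsKnot w) (h : Contrib w v) :
    ∃ k : ℕ, Wt w k ∧ v = k / 2 := by
  cases h with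
  | any => exact ⟨0, .any w, by norm_num⟩
  | alternating d h1 h2 h3 =>
    refine ⟨2 * cr d, wt_alternating hw h1 h2 h3, ?_⟩
    push_cast
    ring
  | adequate d h1 h2 h3 =>
    have hd : IsKnot d := (isKnot_teq h1).1 hw
    have h4 := lp_res_pos hd
    have h5 := lp_res_pos (isKnot_mir.2 hd)
    refine ⟨cr d + lp (resA d) + lp (resA (mir d)) - 2, .adequate w d _ h1 h2 h3 (by omega), ?_⟩
    rw [Nat.cast_sub (by omega)]
    push_cast
    ring
  | braid l h1 => exact ⟨cc w, .braid w l h1, rfl⟩

theorem wts_of_contribs {ws : List Word} {vs : List ℚ} (hw : ∀ w ∈ ws, IsKnot w)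
    (hv : List.Forall₂ Contrib ws vs) :
    ∃ ks : List ℕ, List.Forall₂ Wt ws ks ∧ vs.sum = ks.sum / 2 := by
  induction hv with
  | nil => exact ⟨[], .nil, by simp⟩
  | @cons w v ws vs h1 _ ih =>
    obtain ⟨k, hk, hv⟩ := wt_of_contrib (hw w List.mem_cons_self) h1
    obtain ⟨ks, hks, hs⟩ := ih fun u hu => hw u (List.mem_cons_of_mem _ hu)
    refine ⟨k :: ks, .cons hk hks, ?_⟩
    rw [List.sum_cons, List.sum_cons, hs, hv]
    push_cast
    ring

/-- The crossing number of a connected sum of knots is at least the sum of the contributions of the summands: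
half of the crossing number for every closed 3-braid, the full crossing number of the diagram for a reduced alternating
diagram, and `0` for arbitrary knots. -/
theorem result (ws : List Word) (K : Word) (hK : ConnSum ws K) (hw : ∀ w ∈ ws, IsKnot w)
    (vs : List ℚ) (hv : List.Forall₂ Contrib ws vs) : vs.sum ≤ cc K := by
  obtain ⟨ks, hks, hs⟩ := wts_of_contribs hw hv
  have h := main hK (isKnot_sum hK hw) hw ks hks
  rw [hs]
  have h2 : (ks.sum : ℚ) ≤ 2 * cc K := by exact_mod_cast h
  linarith

end Pool.Agent.Results.MP_c45b53_gt.MixedSums
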